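import Pool.Agent.N793.PG.OneSet

/-! # Sums over difference sets: one set against two sets, one size against all sizes

Notation of the page: `S_χ(A) = ∑ a ∈ A, ∑ b ∈ A, χ (a - b)`.
-/

set_option autoImplicit false

namespace Pool.Agent.Results.MP_cb27ba_nt.DifferenceSets

open Pool.Agent.N793.PG

theorem result :
    -- (1) one-set sums control two-set sums at the same size, explicitly, for even characters;
    -- for odd characters the one-set sums vanish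
    (∀ (p : ℕ), p.Prime → ∀ χ : DirichletCharacter ℂ p, χ ≠ 1 →
      (χ (-1) = 1 → ∀ (L : ℕ) (κ : ℝ), 2 ≤ L → 8 * L ≤ p →
        (∀ X : Finset (ZMod p), X.card = L → ‖∑ a ∈ X, ∑ b ∈ X, χ (a - b)‖ ≤ κ) →
        ∀ A B : Finset (ZMod p), A.card ≤ L → B.card ≤ L →
          ‖∑ a ∈ A, ∑ b ∈ B, χ (a + b)‖ ≤ 13 * κ) ∧
      (χ (-1) ≠ 1 → ∀ A : Finset (ZMod p), ∑ a ∈ A, ∑ b ∈ A, χ (a - b) = 0)) ∧
    -- (2) so at every size the saving exponents of the two problems agree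
    (∀ β δ δ' : ℝ, 0 < β → β < 1 → δ' < δ →
      (OneSet β δ → OneSize EvenF β β δ') ∧ (OneSize EvenF β β δ → OneSet β δ)) ∧
    -- (3) a saving at one size gives savings for all larger and for smaller sizes
    (∀ β δ h δ' : ℝ, 0 ≤ h → h < β → β < 1 → δ' < min δ (β / 2) - h →
      OneSet β δ → SavesSet (β - h) δ') ∧
    -- (4) power saving below `p ^ γ`
    (∀ γ : ℝ, 0 < γ → γ ≤ 1 / 2 →
      ((∃ c δ : ℝ, 0 < c ∧ 0 < δ ∧ SavesSet (γ - c) δ) ↔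
        ∃ β δ : ℝ, γ < β ∧ β < 2 * γ ∧ β - γ < δ ∧ OneSet β δ) ∧
      ((∃ c δ : ℝ, 0 < c ∧ 0 < δ ∧ SavesSet (γ - c) δ) ↔
        ∃ c δ : ℝ, 0 < c ∧ 0 < δ ∧ Saves EvenF (γ - c) (γ - c) δ)) ∧
    -- (5) the square-root barrier
    ((∃ c δ : ℝ, 0 < c ∧ 0 < δ ∧ SavesSet (1 / 2 - c) δ) ↔
      ∃ β δ : ℝ, 1 / 2 < β ∧ β < 1 ∧ 0 < δ ∧ BeatsOneSet β δ) ∧
    -- (6) the question of the page at single sizes
    ((∀ δ : ℝ, 0 < δ → ∃ τ : ℝ, 0 < τ ∧ ∃ P : ℕ, ∀ p : ℕ, p.Prime → P ≤ p →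
        ∀ A : Finset (ZMod p), (p : ℝ) ^ δ < (A.card : ℝ) →
          ∀ χ : DirichletCharacter ℂ p, χ ≠ 1 →
            ‖∑ a ∈ A, ∑ b ∈ A, χ (a - b)‖ < (A.card : ℝ) ^ (2 - τ)) ↔
      ∀ γ : ℝ, 0 < γ → γ ≤ 1 / 2 →
        ∃ β δ : ℝ, γ < β ∧ β < 2 * γ ∧ β - γ < δ ∧ OneSet β δ) ∧
    -- (7) the question of the page is the two-set conjecture for even characters
    ((∀ δ : ℝ, 0 < δ → ∃ τ : ℝ, 0 < τ ∧ ∃ P : ℕ, ∀ p : ℕ, p.Prime → P ≤ p →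
        ∀ A : Finset (ZMod p), (p : ℝ) ^ δ < (A.card : ℝ) →
          ∀ χ : DirichletCharacter ℂ p, χ ≠ 1 →
            ‖∑ a ∈ A, ∑ b ∈ A, χ (a - b)‖ < (A.card : ℝ) ^ (2 - τ)) ↔
      ∀ ε : ℝ, 0 < ε → ∃ δ : ℝ, 0 < δ ∧ Saves EvenF ε ε δ) := by
  refine ⟨?_, ?_, ?_, fun γ h0 h1 => ⟨set_below_iff h0 h1, set_iff_even h0 h1⟩, set_barrier,
    q1_iff, q1_iff_even⟩
  · intro p hp χ hχ
    have : Fact p.Prime := ⟨hp⟩
    refine ⟨fun heven L κ hL2 hL H A B hA hB => two_of_one χ hχ heven L hL2 hL κ H A B hA hB,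
      fun hodd A => ?_⟩
    exact bs_odd χ ((even_or_odd χ).resolve_left hodd) A
  · intro β δ δ' h0 h1 h2
    exact ⟨fun H => H.oneSize h0 h1 h2, fun H => H.oneSet⟩
  · intro β δ h δ' hh h1 h2 h3 H
    have h6 := min_le_left δ (β / 2)
    have h7 := min_le_right δ (β / 2)
    exact H.descend hh h1 h2 (by linarith) (by linarith)

end Pool.Agent.Results.MP_cb27ba_nt.DifferenceSets
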