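import Pool.Agent.N760.TG.U
import Pool.Agent.Results.MP_cb27ba_nt.InitialSegments

/-!
# The initial segments of arbitrary sets of integers for ALL primes near values of multiplicative functions

Let `f` be a positive multiplicative function of at most polynomial growth such that `f p ≤ M p` for the large primes `p`,
with different values at different large primes; for example Euler's function or the sum of the divisors. Let `G` have steps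
bounded below by a positive constant and growth at most `v ^ d`, for example `G v = v`. Let `𝒜` be any set of nonnegative
integers (no condition on its structure or energy) and let `𝒜(p)` be the set of its elements below the prime `p`. For every
`δ > 0` there is `τ > 0` (independent of `f`, `G`, `𝒜`) such that for `κ ≥ 0`, `d (1 - τ) + κ < 1`, for all `m ≤ N` but
`N / (log N) ^ U`, ALL primes `p` with `|p - G (f m)| ≤ f(m) ^ κ` and `|𝒜(p)| ≥ p ^ δ` satisfy the bound of the question for the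
quadratic character and all subsets `A` of `𝒜(p)` with at least `|𝒜(p)| ^ (1 - τ)` elements:
`|∑_{a, b ∈ A} (a - b | p)| < |A| ^ (2 - τ)`. This holds uniformly in `𝒜`. The values of `f` are in general taken with very large
multiplicities, and so this does not follow from the number of exceptional primes.
-/

set_option autoImplicit false

namespace Pool.Agent.Results.MP_cb27ba_nt.MultiplicativeValues

open Finset
open Pool.Agent.N733.TG (LM Expanding lm_totient lm_sigma expanding_pow)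

open scoped Classical in
/-- the elements of `𝒜` below `p` -/
noncomputable def seg (𝒜 : Set ℕ) (p : ℕ) : Finset ℕ := (range p).filter (fun n => n ∈ 𝒜)

/-- the sum of the Legendre symbols of the differences -/
noncomputable def S (p : ℕ) (A : Finset ℕ) : ℝ := ∑ a ∈ A, ∑ b ∈ A, (jacobiSym ((a : ℤ) - b) p : ℝ)

/-- the bound of the question, with saving `τ`, for the quadratic character modulo `p` and all subsets of `𝒜(p)` with at least
`|𝒜(p)| ^ (1 - τ)` elements, if `|𝒜(p)| ≥ p ^ δ` -/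
def Good (δ τ : ℝ) (𝒜 : Set ℕ) (p : ℕ) : Prop :=
  (p : ℝ) ^ δ ≤ (seg 𝒜 p).card → ∀ A ⊆ seg 𝒜 p, ((seg 𝒜 p).card : ℝ) ^ (1 - τ) ≤ A.card →
    |S p A| < (A.card : ℝ) ^ (2 - τ)

/-- the number of the exceptional primes, uniformly in `𝒜` -/
lemma count (δ : ℝ) (hδ : 0 < δ) : ∃ τ C : ℝ, 0 < τ ∧ τ ≤ 1 ∧ ∀ (𝒜 : Set ℕ) (X : ℕ), 1 ≤ X →
    ({t : ℕ | 1 ≤ t ∧ t ≤ X ∧ (t.Prime ∧ ¬ Good δ τ 𝒜 t)}.ncard : ℝ) ≤ C * (X : ℝ) ^ (1 - τ) := by
  obtain ⟨τ', hτ', Q₀, hQ₀⟩ := InitialSegments.result δ hδ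
  obtain ⟨τ, hτd⟩ : ∃ τ, τ = min τ' 1 := ⟨_, rfl⟩
  have hτ : 0 < τ := by rw [hτd]; exact lt_min hτ' one_pos
  have hτ1 : τ ≤ 1 := by rw [hτd]; exact min_le_right _ _
  have hττ : τ ≤ τ' := by rw [hτd]; exact min_le_left _ _
  refine ⟨τ, (Q₀ : ℝ) + 1, hτ, hτ1, fun 𝒜 X hX => ?_⟩
  have hkey : ∀ Q : ℕ, Q₀ ≤ Q → 1 ≤ Q →
      ({p : ℕ | 1 ≤ p ∧ p ≤ Q ∧ (p.Prime ∧ ¬ Good δ τ 𝒜 p)}.ncard : ℝ) ≤ (Q : ℝ) ^ (1 - τ) := by
    intro Q hQ hQ1
    have h := hQ₀ Q hQ 𝒜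
    have hQ1' : (1 : ℝ) ≤ Q := by exact_mod_cast hQ1
    have hfin : {p : ℕ | p.Prime ∧ p ≤ Q ∧ (p : ℝ) ^ δ ≤ (InitialSegments.seg 𝒜 p).card ∧ ∃ A ⊆ InitialSegments.seg 𝒜 p,
        ((InitialSegments.seg 𝒜 p).card : ℝ) ^ (1 - τ') ≤ A.card ∧ (A.card : ℝ) ^ (2 - τ') ≤ |InitialSegments.S p A|}.Finite :=
      (Set.finite_Iic Q).subset (fun p hp => hp.2.1)
    have hsub : {p : ℕ | 1 ≤ p ∧ p ≤ Q ∧ (p.Prime ∧ ¬ Good δ τ 𝒜 p)} ⊆
        {p : ℕ | p.Prime ∧ p ≤ Q ∧ (p : ℝ) ^ δ ≤ (InitialSegments.seg 𝒜 p).card ∧ ∃ A ⊆ InitialSegments.seg 𝒜 p,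
        ((InitialSegments.seg 𝒜 p).card : ℝ) ^ (1 - τ') ≤ A.card ∧ (A.card : ℝ) ^ (2 - τ') ≤ |InitialSegments.S p A|} := by
      rintro p ⟨g1, g2, g3, g4⟩
      unfold Good at g4
      push Not at g4
      obtain ⟨g5, A, g6, g7, g8⟩ := g4
      refine ⟨g3, g2, g5, A, g6, ?_, ?_⟩
      · have hp0 : (0 : ℝ) < (p : ℝ) ^ δ := Real.rpow_pos_of_pos (by exact_mod_cast g3.pos) _
        have hc0 : 0 < (seg 𝒜 p).card := by
          have : (0 : ℝ) < (seg 𝒜 p).card := lt_of_lt_of_le hp0 g5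
          exact_mod_cast this
        have hc1 : (1 : ℝ) ≤ (seg 𝒜 p).card := by exact_mod_cast hc0
        refine le_trans ?_ g7
        exact Real.rpow_le_rpow_of_exponent_le hc1 (by linarith)
      · have hp0 : (0 : ℝ) < (p : ℝ) ^ δ := Real.rpow_pos_of_pos (by exact_mod_cast g3.pos) _
        have hc0 : (0 : ℝ) < (seg 𝒜 p).card := lt_of_lt_of_le hp0 g5
        have hA0 : (0 : ℝ) < A.card := lt_of_lt_of_le (Real.rpow_pos_of_pos hc0 _) g7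
        have hA0' : 0 < A.card := by exact_mod_cast hA0
        have hA1 : (1 : ℝ) ≤ A.card := by exact_mod_cast hA0'
        refine le_trans ?_ g8
        exact Real.rpow_le_rpow_of_exponent_le hA1 (by linarith)
    calc ({p : ℕ | 1 ≤ p ∧ p ≤ Q ∧ (p.Prime ∧ ¬ Good δ τ 𝒜 p)}.ncard : ℝ) ≤ _ := by
          exact_mod_cast Set.ncard_le_ncard hsub hfin
      _ ≤ (Q : ℝ) ^ (1 - τ') := h
      _ ≤ (Q : ℝ) ^ (1 - τ) := Real.rpow_le_rpow_of_exponent_le hQ1' (by linarith)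
  have hX1 : (1 : ℝ) ≤ X := by exact_mod_cast hX
  have hXs : (1 : ℝ) ≤ (X : ℝ) ^ (1 - τ) := Real.one_le_rpow hX1 (by linarith)
  rcases le_total Q₀ X with h3 | h3
  · refine (hkey X h3 hX).trans ?_
    have : (0 : ℝ) ≤ Q₀ := Nat.cast_nonneg _
    nlinarith
  · have hsub : {t : ℕ | 1 ≤ t ∧ t ≤ X ∧ (t.Prime ∧ ¬ Good δ τ 𝒜 t)} ⊆ (Icc 1 X : Finset ℕ) := by
      rintro t ⟨g1, g2, -⟩
      rw [Finset.mem_coe, mem_Icc]
      exact ⟨g1, g2⟩
    have h4 : {t : ℕ | 1 ≤ t ∧ t ≤ X ∧ (t.Prime ∧ ¬ Good δ τ 𝒜 t)}.ncard ≤ X := by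
      refine (Set.ncard_le_ncard hsub (Finset.finite_toSet _)).trans ?_
      rw [Set.ncard_coe_finset, Nat.card_Icc]
      omega
    have h5 : ({t : ℕ | 1 ≤ t ∧ t ≤ X ∧ (t.Prime ∧ ¬ Good δ τ 𝒜 t)}.ncard : ℝ) ≤ (Q₀ : ℝ) := by
      exact_mod_cast h4.trans h3
    have : (0 : ℝ) ≤ Q₀ := Nat.cast_nonneg _
    nlinarith

/-- **Theorem.** For every `δ > 0` there is `τ > 0` with the following property. Let `f` be multiplicative and positive, of at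
most polynomial growth, with `f p ≤ M p` at the large primes, and injective there. Let `G` have steps `≥ a > 0` and growth at
most `v ^ d`, `κ ≥ 0` and `d (1 - τ) + κ < 1`. Then for every `U` there is `N₀` such that for ALL sets `𝒜` of nonnegative integers
and all `N ≥ N₀`: for all `m ≤ N` but `N / (log N) ^ U`, ALL primes `p` with `|p - G (f m)| ≤ f(m) ^ κ` are good for `𝒜`. Euler's
function and the sum of the divisors are examples of such functions `f`, and `α v ^ d` with `α > 0`, `d ≥ 1` is an example of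
`G`. -/
theorem result :
    (∀ δ : ℝ, 0 < δ → ∃ τ : ℝ, 0 < τ ∧ ∀ f : ℕ → ℕ, LM f → ∀ (G : ℕ → ℝ) (d : ℝ), Expanding G d → ∀ κ : ℝ, 0 ≤ κ →
      d * (1 - τ) + κ < 1 → ∀ U : ℕ, ∃ N₀ : ℕ, ∀ (𝒜 : Set ℕ) (N : ℕ), N₀ ≤ N →
        ({m : ℕ | 1 ≤ m ∧ m ≤ N ∧ ¬ ∀ p : ℕ, p.Prime → |(p : ℝ) - G (f m)| ≤ (f m : ℝ) ^ κ → Good δ τ 𝒜 p}.ncard : ℝ) ≤
          N / Real.log N ^ U) ∧
    (LM Nat.totient ∧ LM (fun m => ∑ d ∈ m.divisors, d)) ∧
    ∀ α d : ℝ, 0 < α → 1 ≤ d → Expanding (fun v => α * (v : ℝ) ^ d) d := by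
  refine ⟨?_, ⟨lm_totient, lm_sigma⟩, fun α d hα hd => expanding_pow hα hd⟩
  intro δ hδ
  obtain ⟨τ, C, hτ, hτ1, hcount⟩ := count δ hδ
  refine ⟨τ, hτ, fun f hf G d hG κ hκ h1 U => ?_⟩
  obtain ⟨N₀, hN₀⟩ := Pool.Agent.N760.TG.keep_good_nat_unif hf hG (s := 1 - τ) (by linarith) hκ h1 C U
  refine ⟨N₀, fun 𝒜 N hN => ?_⟩
  have h2 := hN₀ (fun p => p.Prime ∧ ¬ Good δ τ 𝒜 p) (hcount 𝒜) N hN
  refine le_trans ?_ h2
  have hfin : {m : ℕ | 1 ≤ m ∧ m ≤ N ∧ ∃ n : ℕ, 1 ≤ n ∧ |(n : ℝ) - G (f m)| ≤ (f m : ℝ) ^ κ ∧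
      (n.Prime ∧ ¬ Good δ τ 𝒜 n)}.Finite := (Set.finite_Iic N).subset (fun m hm => hm.2.1)
  have hsub : {m : ℕ | 1 ≤ m ∧ m ≤ N ∧ ¬ ∀ p : ℕ, p.Prime → |(p : ℝ) - G (f m)| ≤ (f m : ℝ) ^ κ → Good δ τ 𝒜 p} ⊆
      {m : ℕ | 1 ≤ m ∧ m ≤ N ∧ ∃ n : ℕ, 1 ≤ n ∧ |(n : ℝ) - G (f m)| ≤ (f m : ℝ) ^ κ ∧
      (n.Prime ∧ ¬ Good δ τ 𝒜 n)} := by
    rintro m ⟨g1, g2, g3⟩
    push Not at g3
    obtain ⟨p, g4, g5, g6⟩ := g3
    exact ⟨g1, g2, p, g4.one_lt.le, g5, g4, g6⟩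
  exact_mod_cast Set.ncard_le_ncard hsub hfin

end Pool.Agent.Results.MP_cb27ba_nt.MultiplicativeValues
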