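import Pool.Agent.N671.DA.Win
import Pool.Agent.Results.MP_cb27ba_nt.InitialSegments

/-!
# The initial segments of arbitrary sets of integers for ALL primes near functions of the denominators of good approximations

Let `α_1, …, α_M` be real numbers. We consider the natural numbers `q` with `‖q α_j - β_j‖ ≤ b q^(-σ)` for all `j`, `‖x‖` the
distance to the nearest integer; for `β = 0`, `b = 1`, `σ = 1 / M` these include the denominators of all best simultaneous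
approximations (the denominators of the convergents for `M = 1`), a very sparse sequence. Let `G` be a function with steps
bounded below by a positive constant and growth at most `v ^ D`, for example `a v ^ D`. Let `𝒜` be any set of nonnegative
integers (no condition on its structure or energy) and let `𝒜(p)` be the set of its elements below the prime `p`. For every
`δ > 0` there is `τ > 0` (independent of `G`, `𝒜` and the numbers `α_j`) such that for all `α` in `ℝ^M` outside a set of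
Hausdorff dimension at most `(M + D (1 - τ) + κ) / (1 + σ)`, for all `b`, for all but finitely many such `q`, ALL primes `p`
with `|p - G q| ≤ q ^ κ` and `|𝒜(p)| ≥ p ^ δ` satisfy the bound of the question for the quadratic character and all subsets `A`
of `𝒜(p)` with at least `|𝒜(p)| ^ (1 - τ)` elements: `|∑_{a, b ∈ A} (a - b | p)| < |A| ^ (2 - τ)`. One exceptional set of `α`
suffices for countably many sets `𝒜`. For `σ = 1 / M` the bound for the dimension is less than `M` if `D (1 - τ) + κ < 1`; and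
so the statement holds for almost all `α`.
-/

set_option autoImplicit false

namespace Pool.Agent.Results.MP_cb27ba_nt.SimultaneousApproximations

open Finset
open Pool.Agent.N671.DA (Solves Expanding expanding_pow approx_good_nat)

open scoped Classical in
/-- the elements of `𝒜` below `p` -/
noncomputable def seg (𝒜 : Set ℕ) (p : ℕ) : Finset ℕ := (range p).filter (fun n => n ∈ 𝒜)

/-- the sum of the Legendre symbols of the differences -/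
noncomputable def S (p : ℕ) (A : Finset ℕ) : ℝ := ∑ a ∈ A, ∑ b ∈ A, (jacobiSym ((a : ℤ) - b) p : ℝ)

/-- the bound of the question, with saving `τ`, for the quadratic character modulo `p` and all subsets of `𝒜(p)` with at least
`|𝒜(p)| ^ (1 - τ)` elements, if `|𝒜(p)| ≥ p ^ δ` -/
def Good (δ τ : ℝ) (𝒜 : Set ℕ) (p : ℕ) : Prop :=
  (p : ℝ) ^ δ ≤ (seg 𝒜 p).card → ∀ A ⊆ seg 𝒜 p, ((seg 𝒜 p).card : ℝ) ^ (1 - τ) ≤ A.card →
    |S p A| < (A.card : ℝ) ^ (2 - τ)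

/-- the number of the exceptional primes, uniformly in `𝒜` -/
lemma count (δ : ℝ) (hδ : 0 < δ) : ∃ τ C : ℝ, 0 < τ ∧ τ ≤ 1 ∧ ∀ (𝒜 : Set ℕ) (X : ℕ), 1 ≤ X →
    ({t : ℕ | 1 ≤ t ∧ t ≤ X ∧ (t.Prime ∧ ¬ Good δ τ 𝒜 t)}.ncard : ℝ) ≤ C * (X : ℝ) ^ (1 - τ) := by
  obtain ⟨τ', hτ', Q₀, hQ₀⟩ := InitialSegments.result δ hδ
  obtain ⟨τ, hτd⟩ : ∃ τ, τ = min τ' 1 := ⟨_, rfl⟩
  have hτ : 0 < τ := by rw [hτd]; exact lt_min hτ' one_pos
  have hτ1 : τ ≤ 1 := by rw [hτd]; exact min_le_right _ _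
  have hττ : τ ≤ τ' := by rw [hτd]; exact min_le_left _ _
  refine ⟨τ, (Q₀ : ℝ) + 1, hτ, hτ1, fun 𝒜 X hX => ?_⟩
  have hkey : ∀ Q : ℕ, Q₀ ≤ Q → 1 ≤ Q →
      ({p : ℕ | 1 ≤ p ∧ p ≤ Q ∧ (p.Prime ∧ ¬ Good δ τ 𝒜 p)}.ncard : ℝ) ≤ (Q : ℝ) ^ (1 - τ) := by
    intro Q hQ hQ1
    have h := hQ₀ Q hQ 𝒜
    have hQ1' : (1 : ℝ) ≤ Q := by exact_mod_cast hQ1
    have hfin : {p : ℕ | p.Prime ∧ p ≤ Q ∧ (p : ℝ) ^ δ ≤ (InitialSegments.seg 𝒜 p).card ∧ ∃ A ⊆ InitialSegments.seg 𝒜 p,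
        ((InitialSegments.seg 𝒜 p).card : ℝ) ^ (1 - τ') ≤ A.card ∧ (A.card : ℝ) ^ (2 - τ') ≤ |InitialSegments.S p A|}.Finite :=
      (Set.finite_Iic Q).subset (fun p hp => hp.2.1)
    have hsub : {p : ℕ | 1 ≤ p ∧ p ≤ Q ∧ (p.Prime ∧ ¬ Good δ τ 𝒜 p)} ⊆
        {p : ℕ | p.Prime ∧ p ≤ Q ∧ (p : ℝ) ^ δ ≤ (InitialSegments.seg 𝒜 p).card ∧ ∃ A ⊆ InitialSegments.seg 𝒜 p,
        ((InitialSegments.seg 𝒜 p).card : ℝ) ^ (1 - τ') ≤ A.card ∧ (A.card : ℝ) ^ (2 - τ') ≤ |InitialSegments.S p A|} := by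
      rintro p ⟨g1, g2, g3, g4⟩
      unfold Good at g4
      push Not at g4
      obtain ⟨g5, A, g6, g7, g8⟩ := g4
      refine ⟨g3, g2, g5, A, g6, ?_, ?_⟩
      · have hp0 : (0 : ℝ) < (p : ℝ) ^ δ := Real.rpow_pos_of_pos (by exact_mod_cast g3.pos) _
        have hc0 : 0 < (seg 𝒜 p).card := by
          have : (0 : ℝ) < (seg 𝒜 p).card := lt_of_lt_of_le hp0 g5
          exact_mod_cast this
        have hc1 : (1 : ℝ) ≤ (seg 𝒜 p).card := by exact_mod_cast hc0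
        refine le_trans ?_ g7
        exact Real.rpow_le_rpow_of_exponent_le hc1 (by linarith)
      · have hp0 : (0 : ℝ) < (p : ℝ) ^ δ := Real.rpow_pos_of_pos (by exact_mod_cast g3.pos) _
        have hc0 : (0 : ℝ) < (seg 𝒜 p).card := lt_of_lt_of_le hp0 g5
        have hA0 : (0 : ℝ) < A.card := lt_of_lt_of_le (Real.rpow_pos_of_pos hc0 _) g7
        have hA0' : 0 < A.card := by exact_mod_cast hA0
        have hA1 : (1 : ℝ) ≤ A.card := by exact_mod_cast hA0'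
        refine le_trans ?_ g8
        exact Real.rpow_le_rpow_of_exponent_le hA1 (by linarith)
    calc ({p : ℕ | 1 ≤ p ∧ p ≤ Q ∧ (p.Prime ∧ ¬ Good δ τ 𝒜 p)}.ncard : ℝ) ≤ _ := by
          exact_mod_cast Set.ncard_le_ncard hsub hfin
      _ ≤ (Q : ℝ) ^ (1 - τ') := h
      _ ≤ (Q : ℝ) ^ (1 - τ) := Real.rpow_le_rpow_of_exponent_le hQ1' (by linarith)
  have hX1 : (1 : ℝ) ≤ X := by exact_mod_cast hX
  have hXs : (1 : ℝ) ≤ (X : ℝ) ^ (1 - τ) := Real.one_le_rpow hX1 (by linarith)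
  rcases le_total Q₀ X with h3 | h3
  · refine (hkey X h3 hX).trans ?_
    have : (0 : ℝ) ≤ Q₀ := Nat.cast_nonneg _
    nlinarith
  · have hsub : {t : ℕ | 1 ≤ t ∧ t ≤ X ∧ (t.Prime ∧ ¬ Good δ τ 𝒜 t)} ⊆ (Icc 1 X : Finset ℕ) := by
      rintro t ⟨g1, g2, -⟩
      rw [Finset.mem_coe, mem_Icc]
      exact ⟨g1, g2⟩
    have h4 : {t : ℕ | 1 ≤ t ∧ t ≤ X ∧ (t.Prime ∧ ¬ Good δ τ 𝒜 t)}.ncard ≤ X := by
      refine (Set.ncard_le_ncard hsub (Finset.finite_toSet _)).trans ?_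
      rw [Set.ncard_coe_finset, Nat.card_Icc]
      omega
    have h5 : ({t : ℕ | 1 ≤ t ∧ t ≤ X ∧ (t.Prime ∧ ¬ Good δ τ 𝒜 t)}.ncard : ℝ) ≤ (Q₀ : ℝ) := by
      exact_mod_cast h4.trans h3
    have : (0 : ℝ) ≤ Q₀ := Nat.cast_nonneg _
    nlinarith

/-- **Theorem.** For every `δ > 0` there is `τ` in `(0, 1]` with the following property. Let `G` have steps `≥ a > 0` and growth
at most `v ^ D`, `0 ≤ κ ≤ 1`, `β` in `ℝ^M` and `σ > 0`, and let `𝒜_0, 𝒜_1, …` be ANY sets of nonnegative integers. For all `α` in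
`ℝ^M` outside ONE set of Hausdorff dimension at most `(M + D (1 - τ) + κ) / (1 + σ)`, for all `i` and all `b`, for all large
`q` with `‖q α_j - β_j‖ ≤ b q^(-σ)` for all `j`, ALL primes `p` with `|p - G q| ≤ q ^ κ` are good for `𝒜_i`. The functions
`a v ^ D` with `a > 0`, `D ≥ 1` are examples of `G`. -/
theorem result :
    (∀ δ : ℝ, 0 < δ → ∃ τ : ℝ, 0 < τ ∧ τ ≤ 1 ∧ ∀ (G : ℕ → ℝ) (D : ℝ), Expanding G D → ∀ κ : ℝ, 0 ≤ κ → κ ≤ 1 →
      ∀ (M : ℕ) (β : Fin M → ℝ) (σ : ℝ), 0 < σ → ∀ 𝒜 : ℕ → Set ℕ,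
      ∃ E : Set (Fin M → ℝ), dimH E ≤ ENNReal.ofReal ((M + (D * (1 - τ) + κ)) / (1 + σ)) ∧
        ∀ α, α ∉ E → ∀ (i : ℕ) (b : ℝ), ∃ Q : ℕ, ∀ q : ℕ, Q ≤ q → Solves α β q (b * (q : ℝ) ^ (-σ)) →
          ∀ p : ℕ, p.Prime → |(p : ℝ) - G q| ≤ (q : ℝ) ^ κ → Good δ τ (𝒜 i) p) ∧
    ∀ a d : ℝ, 0 < a → 1 ≤ d → Expanding (fun v => a * (v : ℝ) ^ d) d := by
  refine ⟨?_, fun a d ha hd => expanding_pow ha hd⟩
  intro δ hδ
  obtain ⟨τ, C, hτ, hτ1, hcount⟩ := count δ hδ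
  refine ⟨τ, hτ, hτ1, fun G D hG κ hκ hκ1 M β σ hσ 𝒜 => ?_⟩
  have key : ∀ i : ℕ, ∃ E : Set (Fin M → ℝ),
      dimH E ≤ ENNReal.ofReal ((M + (D * (1 - τ) + κ)) / (1 + σ)) ∧
      ∀ α, α ∉ E → ∀ b : ℝ, ∃ Q : ℕ, ∀ q : ℕ, Q ≤ q → Solves α β q (b * (q : ℝ) ^ (-σ)) →
        ∀ p : ℕ, 1 ≤ p → p.Prime → |(p : ℝ) - G q| ≤ (q : ℝ) ^ κ → Good δ τ (𝒜 i) p := by
    intro i
    refine approx_good_nat Nat.Prime (Good δ τ (𝒜 i)) hG (s := 1 - τ) (κ := κ) (by linarith) hκ hκ1 ?_ β hσ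
    intro ε hε
    refine ⟨|C|, fun X hX => (hcount (𝒜 i) X hX).trans ?_⟩
    have hX1 : (1 : ℝ) ≤ X := by exact_mod_cast hX
    refine mul_le_mul (le_abs_self C) (Real.rpow_le_rpow_of_exponent_le hX1 (by linarith)) ?_ (abs_nonneg C)
    exact Real.rpow_nonneg (by linarith) _
  choose E hE hE2 using key
  refine ⟨⋃ i, E i, ?_, fun α hα i b => ?_⟩
  · rw [dimH_iUnion]
    exact iSup_le hE
  · obtain ⟨Q, hQ⟩ := hE2 i α (fun h => hα (Set.mem_iUnion.2 ⟨i, h⟩)) b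
    exact ⟨Q, fun q hq h1 p hp h2 => hQ q hq h1 p hp.one_lt.le hp h2⟩

end Pool.Agent.Results.MP_cb27ba_nt.SimultaneousApproximations
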