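import Pool.Agent.N760.IT.D
import Pool.Agent.Results.MP_cb27ba_nt.MultiplicativeValues

/-!
# The initial segments of arbitrary sets of integers for ALL primes near the members of almost all orbits of Euler's function

Let `φ_k` be the `k`-th iterate of Euler's function, `φ_0(m) = m`. Let `f` be a positive multiplicative function of at most
polynomial growth such that `f p ≤ M p` for the large primes `p`, with different values at different large primes; for example
the identity, Euler's function or the sum of the divisors. Let `G` have steps bounded below by a positive constant and growth at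
most `v ^ d`, for example `G v = v`. Let `𝒜` be any set of nonnegative integers (no condition on its structure or energy) and let
`𝒜(p)` be the set of its elements below the prime `p`. For every `δ > 0` there is `τ > 0` (independent of `f`, `G`, `𝒜`) such
that for `κ ≥ 0`, `d (1 - τ) + κ < 1` there is `K(m)` tending to infinity such that for almost all `m`, for all `k ≤ K(m)`, with
`v = f(φ_k(m))`, ALL primes `p` with `|p - G v| ≤ v ^ κ` and `|𝒜(p)| ≥ p ^ δ` satisfy the bound of the question for the
quadratic character and all subsets `A` of `𝒜(p)` with at least `|𝒜(p)| ^ (1 - τ)` elements: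
`|∑_{a, b ∈ A} (a - b | p)| < |A| ^ (2 - τ)`. The iterates of Euler's function are not multiplicative, their values form a very
thin set and are taken with very large multiplicities, and so this does not follow from the number of exceptional primes.
-/

set_option autoImplicit false

namespace Pool.Agent.Results.MP_cb27ba_nt.TotientOrbits

open Finset Filter
open Pool.Agent.N733.TG (LM Expanding lm_totient lm_sigma expanding_pow)
open Pool.Agent.N760.IT (orb lm_id)
open Pool.Agent.N826.IT.Orb (AlmostAll almostAll_mono)
open Pool.Agent.Results.MP_cb27ba_nt.MultiplicativeValues (Good count)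

/-- **Theorem.** For every `δ > 0` there is `τ > 0` with the following property. Let `f` be multiplicative and positive, of at
most polynomial growth, with `f p ≤ M p` at the large primes, and injective there. Let `G` have steps `≥ a > 0` and growth at
most `v ^ d`, `κ ≥ 0` and `d (1 - τ) + κ < 1`. Then for every set `𝒜` of nonnegative integers there is `K(m)` tending to infinity
such that for almost all `m`, for all `k ≤ K(m)`, with `v = f(φ_k(m))` (`orb f k m`), ALL primes `p` with `|p - G v| ≤ v ^ κ` are
good for `𝒜`. The identity, Euler's function and the sum of the divisors are examples of such functions `f`, and `α v ^ d` with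
`α > 0`, `d ≥ 1` is an example of `G`. -/
theorem result :
    (∀ δ : ℝ, 0 < δ → ∃ τ : ℝ, 0 < τ ∧ ∀ f : ℕ → ℕ, LM f → ∀ (G : ℕ → ℝ) (d : ℝ), Expanding G d → ∀ κ : ℝ, 0 ≤ κ →
      d * (1 - τ) + κ < 1 → ∀ 𝒜 : Set ℕ, ∃ K : ℕ → ℕ, Tendsto K atTop atTop ∧
        AlmostAll (fun m => ∀ k ≤ K m, ∀ p : ℕ, p.Prime → |(p : ℝ) - G (orb f k m)| ≤ (orb f k m : ℝ) ^ κ →
          Good δ τ 𝒜 p)) ∧
    (LM (fun m => m) ∧ LM Nat.totient ∧ LM (fun m => ∑ d ∈ m.divisors, d)) ∧
    ∀ α d : ℝ, 0 < α → 1 ≤ d → Expanding (fun v => α * (v : ℝ) ^ d) d := by
  refine ⟨?_, ⟨lm_id, lm_totient, lm_sigma⟩, fun α d hα hd => expanding_pow hα hd⟩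
  intro δ hδ
  obtain ⟨τ, C, hτ, hτ1, hcount⟩ := count δ hδ
  refine ⟨τ, hτ, fun f hf G d hG κ hκ h1 𝒜 => ?_⟩
  obtain ⟨K, hK, hK2⟩ := Pool.Agent.N760.IT.orbit_good_nat' (fun p => p.Prime → Good δ τ 𝒜 p) hf hG (s := 1 - τ)
    (by linarith) hκ h1 ⟨C, fun X hX => by
      refine le_trans (le_of_eq ?_) (hcount 𝒜 X hX)
      congr 2
      ext t
      simp only [Set.mem_ofPred_eq, Classical.not_imp]⟩
  exact ⟨K, hK, almostAll_mono hK2 (fun m hm k hk p hp hw => hm k hk p hp.one_lt.le hw hp)⟩

end Pool.Agent.Results.MP_cb27ba_nt.TotientOrbits
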